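import Pool.Agent.Helper20.EQ.St2

set_option autoImplicit false

/-!
# EQ module LCZ: cell averages of aspect zero are small at the points of a local set
-/

open MeasureTheory Set Filter Topology
open scoped ENNReal RealInnerProductSpace

namespace Pool.Agent.Helper24.EQ

open Pool.Agent.Helper68.LM (Pl BB Bd Av HL ft fm DQ)
open Pool.Agent.Helper20.RG Pool.Agent.Helper20.EQ
open Pool.Agent.Helper68.EP (elt GapP)

theorem hLCZ (hPT : StPT) (hCEF : StCEF) : StLCZ := by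
  intro R hR
  refine ⟨R + 23, by linarith, ?_⟩
  intro s la mu D c k g x x' hs hc hla hla' hmu hmu' hD hg hg0 hloc hx
  have h2 : (0 : ℝ) < (2 : ℝ) ^ k := zpow_pos (by norm_num) k
  have h4 : (4 : ℝ) ^ k = (2 : ℝ) ^ k * (2 : ℝ) ^ k := by
    rw [← mul_zpow]; norm_num
  have hk0 : (2 : ℝ) ^ (k - ((0 : ℕ) : ℤ)) = (2 : ℝ) ^ k := by simp
  obtain ⟨_, _, hf⟩ := hCEF s la mu k 0 (x' - (2 : ℝ) ^ k • c) hs (by linarith) (by linarith)
  rw [hf g hg]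
  obtain ⟨_, _, hn, _⟩ := hPT
  have hc0 : |c 0| ≤ R := (hn c).1.trans hc
  have hc1 : |c 1| ≤ R := (hn c).2.1.trans hc
  have hsub : Cel s la mu k 0 (x' - (2 : ℝ) ^ k • c) ⊆ Sq x ((R + 23) * (2 : ℝ) ^ k) := by
    rintro y ⟨hy0, hy1⟩
    obtain ⟨hx0, hx1⟩ := hx
    rw [hk0] at hy1
    simp only [pr, PiLp.sub_apply, PiLp.smul_apply, smul_eq_mul] at hy0 hy1
    have a0 : la * (2 : ℝ) ^ k / 2 ≤ 6 * (2 : ℝ) ^ k := by nlinarith
    have a1 : mu * (2 : ℝ) ^ k / 2 ≤ 15 * (2 : ℝ) ^ k := by nlinarith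
    have b0 : |(2 : ℝ) ^ k * c 0| ≤ R * (2 : ℝ) ^ k := by
      rw [abs_mul, abs_of_pos h2, mul_comm]
      exact mul_le_mul_of_nonneg_right hc0 h2.le
    have b1 : |(2 : ℝ) ^ k * c 1| ≤ R * (2 : ℝ) ^ k := by
      rw [abs_mul, abs_of_pos h2, mul_comm]
      exact mul_le_mul_of_nonneg_right hc1 h2.le
    have hs' : |s * (y 0 - (x' 0 - (2 : ℝ) ^ k * c 0))| ≤ 6 * (2 : ℝ) ^ k := by
      rw [abs_mul]
      calc |s| * |y 0 - (x' 0 - (2 : ℝ) ^ k * c 0)| ≤ 1 * (6 * (2 : ℝ) ^ k) :=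
            mul_le_mul hs (hy0.trans a0) (abs_nonneg _) (by norm_num)
        _ = _ := one_mul _
    have hy0' := abs_le.1 (hy0.trans a0)
    have hy1' := abs_le.1 (hy1.trans a1)
    have b0' := abs_le.1 b0
    have b1' := abs_le.1 b1
    have hs'' := abs_le.1 hs'
    have hx0' := abs_le.1 hx0
    have hx1' := abs_le.1 hx1
    constructor
    · rw [abs_le]
      constructor <;> linarith [hy0'.1, hy0'.2, b0'.1, b0'.2, hx0'.1, hx0'.2]
    · rw [abs_le]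
      constructor <;> linarith [hy1'.1, hy1'.2, b1'.1, b1'.2, hx1'.1, hx1'.2, hs''.1, hs''.2]
  have hint : ∫ y in Cel s la mu k 0 (x' - (2 : ℝ) ^ k • c), g y ≤ D * (4 : ℝ) ^ k := by
    have e1 : ENNReal.ofReal (∫ y in Cel s la mu k 0 (x' - (2 : ℝ) ^ k • c), g y) ≤
        ENNReal.ofReal (D * (4 : ℝ) ^ k) := by
      calc ENNReal.ofReal (∫ y in Cel s la mu k 0 (x' - (2 : ℝ) ^ k • c), g y)
          ≤ ‖∫ y in Cel s la mu k 0 (x' - (2 : ℝ) ^ k • c), g y‖ₑ := by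
            rw [← ofReal_norm]
            exact ENNReal.ofReal_le_ofReal (le_abs_self _)
        _ ≤ ∫⁻ y in Cel s la mu k 0 (x' - (2 : ℝ) ^ k • c), ‖g y‖ₑ :=
            enorm_integral_le_lintegral_enorm _
        _ ≤ ∫⁻ y in Sq x ((R + 23) * (2 : ℝ) ^ k), ‖g y‖ₑ := lintegral_mono_set hsub
        _ ≤ _ := hloc k
    exact (ENNReal.ofReal_le_ofReal_iff (by positivity)).1 e1
  rw [hk0]
  rw [h4] at hint
  have hden : 0 < la * mu * (2 : ℝ) ^ k * (2 : ℝ) ^ k := by positivity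
  rw [one_div, inv_mul_le_iff₀ hden]
  have hlm : 1 ≤ la * mu := by nlinarith
  have hq : 0 ≤ D * ((2 : ℝ) ^ k * (2 : ℝ) ^ k) := by positivity
  calc ∫ y in Cel s la mu k 0 (x' - (2 : ℝ) ^ k • c), g y ≤ D * ((2 : ℝ) ^ k * (2 : ℝ) ^ k) := hint
    _ ≤ (la * mu) * (D * ((2 : ℝ) ^ k * (2 : ℝ) ^ k)) := le_mul_of_one_le_left hq hlm
    _ = _ := by ring

end Pool.Agent.Helper24.EQ
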