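import Pool.Agent.Helper20.EQ.St5
import Pool.Agent.Helper79.RG.M_CO2

set_option autoImplicit false

/-!
# Project EQ (MP_cb927e_an): module MAQ
-/

open MeasureTheory Set Filter Topology
open scoped ENNReal RealInnerProductSpace

namespace Pool.Agent.Helper24.EQ

open Pool.Agent.Helper68.LM (Pl BB Bd Av HL ft fm DQ)
open Pool.Agent.Helper20.RG Pool.Agent.Helper20.EQ
open Pool.Agent.Helper68.EP (elt GapP StCPP)
open Pool.Agent.Helper61.Lacunary (ConditionG LpBounded)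

theorem graph_scale_MAQ {φ τ : ℝ → ℝ} (h : Graph φ τ) {ℓ : ℝ} (hℓ : 0 < ℓ) :
    Graph (fun t => φ (ℓ * t) / ℓ) (fun t => τ (ℓ * t)) := by
  refine ⟨fun t => h.1 _, fun t t' htt => ?_⟩
  have h1 := h.2 (ℓ * t) (ℓ * t') (mul_le_mul_of_nonneg_left htt hℓ.le)
  have e1 : φ (ℓ * t') / ℓ - φ (ℓ * t) / ℓ = (φ (ℓ * t') - φ (ℓ * t)) / ℓ := by ring
  constructor
  · show τ (ℓ * t) * (t' - t) ≤ φ (ℓ * t') / ℓ - φ (ℓ * t) / ℓ
    rw [e1, le_div_iff₀ hℓ]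
    calc τ (ℓ * t) * (t' - t) * ℓ = τ (ℓ * t) * (ℓ * t' - ℓ * t) := by ring
      _ ≤ _ := h1.1
  · show φ (ℓ * t') / ℓ - φ (ℓ * t) / ℓ ≤ τ (ℓ * t') * (t' - t)
    rw [e1, div_le_iff₀ hℓ]
    calc φ (ℓ * t') - φ (ℓ * t) ≤ τ (ℓ * t') * (ℓ * t' - ℓ * t) := h1.2
      _ = _ := by ring

theorem hMAQ (hCOV : StCOV) (hCPP : StCPP) (hCRQ : StCRQ) (hRES : StRES) (hFIN : StFIN) :
    StMAQ := by
  intro Ω p hO hC hB h0 hp2 hp3 hG
  have hp : 1 < p := by linarith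
  have hne : Ω.Nonempty := ⟨0, h0⟩
  obtain ⟨n, P, u, v, ℓ, φ, τ, hPiece, hcov⟩ := hCOV Ω hO hC hB hne
  refine hFIN Ω p n P u v ℓ φ τ hB hp hPiece hcov ?_
  intro i hi
  have hpi := hPiece i hi
  refine hRES Ω (P i) (u i) (v i) (ℓ i) (φ i) (τ i) p hpi hp.le ?_
  intro c
  obtain ⟨A, hA, hgap⟩ := hCPP Ω p hO hC hB hne (by linarith) hG (P i) (u i) (v i) (ℓ i) (φ i)
    (τ i) hpi
  have hgr : Graph (fun t => φ i (ℓ i * t) / ℓ i) (fun t => τ i (ℓ i * t)) :=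
    graph_scale_MAQ hpi.graph hpi.pos
  obtain ⟨C, hC', hkey⟩ := hCRQ _ _ A p c hgr hA hgap hp2 hp3
  haveI : IsFiniteMeasure (arc c (fun t => φ i (ℓ i * t) / ℓ i)) := by
    unfold arc
    infer_instance
  exact Pool.Agent.Helper79.RG.co2_gen (arc c (fun t => φ i (ℓ i * t) / ℓ i)) p C
    (by linarith) hC' hkey

end Pool.Agent.Helper24.EQ
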